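import Pool.Agent.H.MP_98514b_co.A

set_option maxRecDepth 100000

namespace Pool.Agent.H.MP_98514b_co

theorem k0_1 : NK0.all (f1 0) = true := by decide +kernel
theorem k0_2 : c2 (f2 0) NK0 = true := by decide +kernel
theorem k0_len : NK0.length = 189 := by decide +kernel
theorem k0_3_0 : d3 0 5 (NK0.drop 0) = true := by decide +kernel
theorem k0_3_1 : d3 0 5 (NK0.drop 5) = true := by decide +kernel
theorem k0_3_2 : d3 0 5 (NK0.drop 10) = true := by decide +kernel
theorem k0_3_3 : d3 0 6 (NK0.drop 15) = true := by decide +kernel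
theorem k0_3_4 : d3 0 6 (NK0.drop 21) = true := by decide +kernel
theorem k0_3_5 : d3 0 7 (NK0.drop 27) = true := by decide +kernel
theorem k0_3_6 : d3 0 7 (NK0.drop 34) = true := by decide +kernel
theorem k0_3_7 : d3 0 8 (NK0.drop 41) = true := by decide +kernel
theorem k0_3_8 : d3 0 9 (NK0.drop 49) = true := by decide +kernel
theorem k0_3_9 : d3 0 10 (NK0.drop 58) = true := by decide +kernel
theorem k0_3_10 : d3 0 12 (NK0.drop 68) = true := by decide +kernel
theorem k0_3_11 : d3 0 15 (NK0.drop 80) = true := by decide +kernel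
theorem k0_3_12 : d3 0 23 (NK0.drop 95) = true := by decide +kernel
theorem k0_3_13 : d3 0 71 (NK0.drop 118) = true := by decide +kernel

end Pool.Agent.H.MP_98514b_co
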