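import Pool.Agent.H.MP_98514b_co.A

set_option maxRecDepth 100000

namespace Pool.Agent.H.MP_98514b_co

theorem k1_1 : NK1.all (f1 1) = true := by decide +kernel
theorem k1_2 : c2 (f2 1) NK1 = true := by decide +kernel
theorem k1_len : NK1.length = 189 := by decide +kernel
theorem k1_3_0 : d3 1 5 (NK1.drop 0) = true := by decide +kernel
theorem k1_3_1 : d3 1 5 (NK1.drop 5) = true := by decide +kernel
theorem k1_3_2 : d3 1 5 (NK1.drop 10) = true := by decide +kernel
theorem k1_3_3 : d3 1 6 (NK1.drop 15) = true := by decide +kernel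
theorem k1_3_4 : d3 1 6 (NK1.drop 21) = true := by decide +kernel
theorem k1_3_5 : d3 1 7 (NK1.drop 27) = true := by decide +kernel
theorem k1_3_6 : d3 1 7 (NK1.drop 34) = true := by decide +kernel
theorem k1_3_7 : d3 1 8 (NK1.drop 41) = true := by decide +kernel
theorem k1_3_8 : d3 1 9 (NK1.drop 49) = true := by decide +kernel
theorem k1_3_9 : d3 1 10 (NK1.drop 58) = true := by decide +kernel
theorem k1_3_10 : d3 1 12 (NK1.drop 68) = true := by decide +kernel
theorem k1_3_11 : d3 1 15 (NK1.drop 80) = true := by decide +kernel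
theorem k1_3_12 : d3 1 23 (NK1.drop 95) = true := by decide +kernel
theorem k1_3_13 : d3 1 71 (NK1.drop 118) = true := by decide +kernel

end Pool.Agent.H.MP_98514b_co
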