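import Pool.Agent.H.MP_98514b_co.B
import Pool.Agent.H.MP_98514b_co.K0
import Pool.Agent.H.MP_98514b_co.K1
import Pool.Agent.H.MP_98514b_co.K2

set_option maxRecDepth 20000
set_option linter.constructorNameAsVariable false

namespace Pool.Agent.H.MP_98514b_co

open Finset

theorem c2_sound {α : Type} (f : α → α → Bool) (l : List α) (h : c2 f l = true) :
    ∀ p ∈ l, ∀ q ∈ l, p ≠ q → f p q = true ∨ f q p = true := by
  induction l with
  | nil => simp
  | cons a l ih =>
    rw [c2, Bool.and_eq_true, List.all_eq_true] at h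
    intro p hp q hq hne
    rcases List.mem_cons.mp hp with rfl | hp' <;> rcases List.mem_cons.mp hq with rfl | hq'
    · exact absurd rfl hne
    · exact Or.inl (h.1 q hq')
    · exact Or.inr (h.1 p hp')
    · exact ih h.2 p hp' q hq' hne

theorem c3_split {α : Type} (f : α → α → α → Bool) (n m : ℕ) :
    ∀ l : List α, c3 f n l = true → c3 f m (l.drop n) = true → c3 f (m + n) l = true := by
  induction n with
  | zero => intro l _ h; simpa using h
  | succ n ih =>
    intro l h1 h2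
    cases l with
    | nil => rw [← Nat.add_assoc, c3]; simp
    | cons a l =>
      rw [c3, Bool.and_eq_true] at h1
      rw [← Nat.add_assoc, c3, Bool.and_eq_true]
      exact ⟨h1.1, ih l h1.2 (by simpa using h2)⟩

theorem c3_sound {α : Type} (f : α → α → α → Bool) (l : List α) :
    ∀ n, l.length ≤ n → c3 f n l = true → ∀ p ∈ l, ∀ q ∈ l, ∀ r ∈ l, p ≠ q → p ≠ r → q ≠ r →
      ∃ a b c, f a b c = true ∧ [a, b, c].Perm [p, q, r] := by
  induction l with
  | nil => simp
  | cons a l ih =>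
    intro n hn h p hp q hq r hr n1 n2 n3
    obtain ⟨m, rfl⟩ : ∃ m, n = m + 1 := ⟨n - 1, by simp at hn; omega⟩
    rw [c3, Bool.and_eq_true] at h
    have h2 := c2_sound _ _ h.1
    by_cases e1 : p = a
    · subst e1
      have hq' : q ∈ l := (List.mem_cons.mp hq).resolve_left n1.symm
      have hr' : r ∈ l := (List.mem_cons.mp hr).resolve_left n2.symm
      rcases h2 q hq' r hr' n3 with k | k
      · exact ⟨_, _, _, k, List.Perm.refl _⟩
      · exact ⟨_, _, _, k, (List.Perm.swap _ _ _).cons _⟩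
    have hp' : p ∈ l := (List.mem_cons.mp hp).resolve_left e1
    by_cases e2 : q = a
    · subst e2
      have hr' : r ∈ l := (List.mem_cons.mp hr).resolve_left n3.symm
      rcases h2 p hp' r hr' n2 with k | k
      · exact ⟨_, _, _, k, List.Perm.swap _ _ _⟩
      · exact ⟨_, _, _, k, ((List.Perm.swap _ _ _).cons _).trans (List.Perm.swap _ _ _)⟩
    have hq' : q ∈ l := (List.mem_cons.mp hq).resolve_left e2
    by_cases e3 : r = a
    · subst e3
      rcases h2 p hp' q hq' n1 with k | k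
      · exact ⟨_, _, _, k, (List.Perm.swap _ _ _).trans ((List.Perm.swap _ _ _).cons _)⟩
      · exact ⟨_, _, _, k, ((List.Perm.swap _ _ _).cons _).trans
          ((List.Perm.swap _ _ _).trans ((List.Perm.swap _ _ _).cons _))⟩
    have hr' : r ∈ l := (List.mem_cons.mp hr).resolve_left e3
    exact ih m (by simp at hn; omega) h.2 p hp' q hq' r hr' n1 n2 n3

theorem in3_eq (j : ℕ) (a b : ℕ × ℕ × ℕ) (l : List (ℕ × ℕ × ℕ)) :
    in3 j a b (Nat.xor a.2.2 b.2.2) l = l.all (f3 j a b) := by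
  induction l with
  | nil => rfl
  | cons c l ih =>
    rw [List.all_cons, ← ih, f3]
    show @Bool.rec (fun _ => Bool) (in3 j a b (Nat.xor a.2.2 b.2.2) l)
      (wit j [a, b, c] (a.2.2 ^^^ b.2.2 ^^^ c.2.2) && in3 j a b (Nat.xor a.2.2 b.2.2) l)
      (Nat.beq (st (st (Nat.xor (Nat.xor a.2.2 b.2.2) c.2.2))) 0) = _
    cases Nat.beq (st (st (Nat.xor (Nat.xor a.2.2 b.2.2) c.2.2))) 0 <;> simp

theorem d2_eq (j : ℕ) (a : ℕ × ℕ × ℕ) (l : List (ℕ × ℕ × ℕ)) : d2 j a l = c2 (f3 j a) l := by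
  induction l with
  | nil => rfl
  | cons b l ih => rw [c2, ← ih, ← in3_eq]; rfl

theorem d3_eq (j : ℕ) : ∀ (n : ℕ) (l : List (ℕ × ℕ × ℕ)), d3 j n l = c3 (f3 j) n l := by
  intro n
  induction n with
  | zero => intro l; rw [d3, c3]
  | succ n ih =>
    intro l
    cases l with
    | nil => rw [d3, c3] <;> simp
    | cons a l => rw [d3, c3, d2_eq, ih]

theorem kAll {j : ℕ} (hj : j < 3) : chkL j = true ∧ chkI j = true ∧ (NK j).all (f1 j) = true ∧
    c2 (f2 j) (NK j) = true ∧ c3 (f3 j) 189 (NK j) = true ∧ (NK j).length = 189 := by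
  have : j = 0 ∨ j = 1 ∨ j = 2 := by omega
  rcases this with rfl | rfl | rfl
  · have e : NK 0 = NK0 := by simp [NK]
    rw [e]
    refine ⟨hL0, hI0, k0_1, k0_2, ?_, k0_len⟩
    rw [← List.drop_zero (l := NK0)]
    refine c3_split _ 5 184 _ (d3_eq _ _ _ ▸ k0_3_0) ?_
    rw [List.drop_drop]
    refine c3_split _ 5 179 _ (d3_eq _ _ _ ▸ k0_3_1) ?_
    rw [List.drop_drop]
    refine c3_split _ 5 174 _ (d3_eq _ _ _ ▸ k0_3_2) ?_
    rw [List.drop_drop]
    refine c3_split _ 6 168 _ (d3_eq _ _ _ ▸ k0_3_3) ?_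
    rw [List.drop_drop]
    refine c3_split _ 6 162 _ (d3_eq _ _ _ ▸ k0_3_4) ?_
    rw [List.drop_drop]
    refine c3_split _ 7 155 _ (d3_eq _ _ _ ▸ k0_3_5) ?_
    rw [List.drop_drop]
    refine c3_split _ 7 148 _ (d3_eq _ _ _ ▸ k0_3_6) ?_
    rw [List.drop_drop]
    refine c3_split _ 8 140 _ (d3_eq _ _ _ ▸ k0_3_7) ?_
    rw [List.drop_drop]
    refine c3_split _ 9 131 _ (d3_eq _ _ _ ▸ k0_3_8) ?_
    rw [List.drop_drop]
    refine c3_split _ 10 121 _ (d3_eq _ _ _ ▸ k0_3_9) ?_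
    rw [List.drop_drop]
    refine c3_split _ 12 109 _ (d3_eq _ _ _ ▸ k0_3_10) ?_
    rw [List.drop_drop]
    refine c3_split _ 15 94 _ (d3_eq _ _ _ ▸ k0_3_11) ?_
    rw [List.drop_drop]
    refine c3_split _ 23 71 _ (d3_eq _ _ _ ▸ k0_3_12) ?_
    rw [List.drop_drop]
    exact d3_eq _ _ _ ▸ k0_3_13
  · have e : NK 1 = NK1 := by simp [NK]
    rw [e]
    refine ⟨hL1, hI1, k1_1, k1_2, ?_, k1_len⟩
    rw [← List.drop_zero (l := NK1)]
    refine c3_split _ 5 184 _ (d3_eq _ _ _ ▸ k1_3_0) ?_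
    rw [List.drop_drop]
    refine c3_split _ 5 179 _ (d3_eq _ _ _ ▸ k1_3_1) ?_
    rw [List.drop_drop]
    refine c3_split _ 5 174 _ (d3_eq _ _ _ ▸ k1_3_2) ?_
    rw [List.drop_drop]
    refine c3_split _ 6 168 _ (d3_eq _ _ _ ▸ k1_3_3) ?_
    rw [List.drop_drop]
    refine c3_split _ 6 162 _ (d3_eq _ _ _ ▸ k1_3_4) ?_
    rw [List.drop_drop]
    refine c3_split _ 7 155 _ (d3_eq _ _ _ ▸ k1_3_5) ?_
    rw [List.drop_drop]
    refine c3_split _ 7 148 _ (d3_eq _ _ _ ▸ k1_3_6) ?_
    rw [List.drop_drop]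
    refine c3_split _ 8 140 _ (d3_eq _ _ _ ▸ k1_3_7) ?_
    rw [List.drop_drop]
    refine c3_split _ 9 131 _ (d3_eq _ _ _ ▸ k1_3_8) ?_
    rw [List.drop_drop]
    refine c3_split _ 10 121 _ (d3_eq _ _ _ ▸ k1_3_9) ?_
    rw [List.drop_drop]
    refine c3_split _ 12 109 _ (d3_eq _ _ _ ▸ k1_3_10) ?_
    rw [List.drop_drop]
    refine c3_split _ 15 94 _ (d3_eq _ _ _ ▸ k1_3_11) ?_
    rw [List.drop_drop]
    refine c3_split _ 23 71 _ (d3_eq _ _ _ ▸ k1_3_12) ?_
    rw [List.drop_drop]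
    exact d3_eq _ _ _ ▸ k1_3_13
  · have e : NK 2 = NK2 := by simp [NK]
    rw [e]
    refine ⟨hL2, hI2, k2_1, k2_2, ?_, k2_len⟩
    rw [← List.drop_zero (l := NK2)]
    refine c3_split _ 5 184 _ (d3_eq _ _ _ ▸ k2_3_0) ?_
    rw [List.drop_drop]
    refine c3_split _ 5 179 _ (d3_eq _ _ _ ▸ k2_3_1) ?_
    rw [List.drop_drop]
    refine c3_split _ 5 174 _ (d3_eq _ _ _ ▸ k2_3_2) ?_
    rw [List.drop_drop]
    refine c3_split _ 6 168 _ (d3_eq _ _ _ ▸ k2_3_3) ?_
    rw [List.drop_drop]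
    refine c3_split _ 6 162 _ (d3_eq _ _ _ ▸ k2_3_4) ?_
    rw [List.drop_drop]
    refine c3_split _ 7 155 _ (d3_eq _ _ _ ▸ k2_3_5) ?_
    rw [List.drop_drop]
    refine c3_split _ 7 148 _ (d3_eq _ _ _ ▸ k2_3_6) ?_
    rw [List.drop_drop]
    refine c3_split _ 8 140 _ (d3_eq _ _ _ ▸ k2_3_7) ?_
    rw [List.drop_drop]
    refine c3_split _ 9 131 _ (d3_eq _ _ _ ▸ k2_3_8) ?_
    rw [List.drop_drop]
    refine c3_split _ 10 121 _ (d3_eq _ _ _ ▸ k2_3_9) ?_
    rw [List.drop_drop]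
    refine c3_split _ 12 109 _ (d3_eq _ _ _ ▸ k2_3_10) ?_
    rw [List.drop_drop]
    refine c3_split _ 15 94 _ (d3_eq _ _ _ ▸ k2_3_11) ?_
    rw [List.drop_drop]
    refine c3_split _ 23 71 _ (d3_eq _ _ _ ▸ k2_3_12) ?_
    rw [List.drop_drop]
    exact d3_eq _ _ _ ▸ k2_3_13

theorem low_bit : ∀ y : ℕ, y ≠ 0 → ∃ m, y.testBit m = true ∧ (y - 1).testBit m = false := by
  intro y
  induction y using Nat.strong_induction_on with
  | _ y ih =>
    intro hy
    by_cases h : y % 2 = 1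
    · refine ⟨0, by simp [h], ?_⟩
      simp only [Nat.testBit_zero, decide_eq_false_iff_not]
      omega
    · obtain ⟨m, h1, h2⟩ := ih (y / 2) (by omega) (by omega)
      refine ⟨m + 1, by rw [Nat.testBit_succ]; exact h1, ?_⟩
      rw [Nat.testBit_succ, show (y - 1) / 2 = y / 2 - 1 by omega]
      exact h2

theorem st_iter : ∀ (k : ℕ) (I : Finset ℕ) (y : ℕ), I.card ≤ k →
    (∀ t, y.testBit t = true → t ∈ I) → st^[k] y = 0 := by
  intro k
  induction k with
  | zero =>
    intro I y h1 h2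
    have : I = ∅ := card_eq_zero.mp (by omega)
    subst this
    apply Nat.eq_of_testBit_eq
    intro t
    cases e : y.testBit t
    · simpa using e
    · simpa using h2 t e
  | succ k ih =>
    intro I y h1 h2
    rw [Function.iterate_succ_apply]
    by_cases hy : y = 0
    · subst hy
      exact ih ∅ _ (by simp) (by simp [show st 0 = 0 from rfl])
    · obtain ⟨m, m1, m2⟩ := low_bit y hy
      have hm := h2 _ m1
      refine ih (I.erase m) _ (by rw [card_erase_of_mem hm]; omega) ?_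
      intro t ht
      rw [show st y = y &&& (y - 1) from rfl, Nat.testBit_and, Bool.and_eq_true] at ht
      refine mem_erase.mpr ⟨?_, h2 t ht.1⟩
      rintro rfl
      rw [m2] at ht
      exact absurd ht.2 (by simp)

attribute [local irreducible] lab nbr nb kf NK st NK0 NK1 NK2

abbrev V := Fin 190

instance : DecidableRel G.Adj := fun u v => inferInstanceAs (Decidable (v.val ∈ nb u.val))

def L (j : ℕ) (p : V × V) : ℕ := lab j p.1.val p.2.val

theorem fL0 {j : ℕ} (hj : j < 3) (a : V) :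
    (lab j a (nbr a 0) ^^^ lab j a (nbr a 1) ^^^ lab j a (nbr a 2) = 0) ∧ ∀ b ∈ nb a,
    lab j a b = lab j b a ∧ kf j a b = kf j b a ∧
    (kf j a b = true → lab j a b = 2 ^ (lab j a b).log2) ∧
    (kf j a b = false → a.val ≤ b → (a.val, b, lab j a b) ∈ NK j) := by
  have h := (kAll hj).1
  simp only [chkL, List.all_eq_true, List.mem_range, Bool.and_eq_true, Bool.or_eq_true,
    beq_iff_eq, decide_eq_true_eq, List.contains_iff_mem, Bool.not_eq_true'] at h
  obtain ⟨h1, h2⟩ := h a a.2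
  refine ⟨h1, fun b hb => ?_⟩
  obtain ⟨⟨⟨g1, g2⟩, g3⟩, g4⟩ := h2 b hb
  refine ⟨g1, g2, fun k => ?_, fun k k' => ?_⟩
  · rcases g3 with g3 | g3
    · rw [k] at g3; exact absurd g3 (by simp)
    · exact g3
  · rcases g4 with (g4 | g4) | g4
    · rw [k] at g4; exact absurd g4 (by simp)
    · omega
    · exact g4

theorem fL {j : ℕ} (hj : j < 3) {a b : V} (h : G.Adj a b) :
    L j (b, a) = L j (a, b) ∧ kf j b a = kf j a b ∧
    (kf j a b = true → L j (a, b) = 2 ^ (L j (a, b)).log2) ∧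
    (kf j a b = false → a.val ≤ b.val → (a.val, b.val, L j (a, b)) ∈ NK j) := by
  obtain ⟨g1, g2, g3, g4⟩ := (fL0 hj a).2 b h
  exact ⟨g1.symm, g2.symm, g3, g4⟩

theorem inj0 {j : ℕ} (hj : j < 3) {a b c d : V} (h : G.Adj a b) (hab : a.val < b.val)
    (h' : G.Adj c d) (hcd : c.val < d.val) (k : kf j a b = true) (k' : kf j c d = true)
    (e : L j (a, b) = L j (c, d)) : a = c ∧ b = d := by
  have m : ∀ {a b : V}, G.Adj a b → a.val < b.val → kf j a b = true →
      (a.val, b.val, L j (a, b)) ∈ KL j := by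
    intro a b h hab k
    simp only [KL, List.mem_flatMap, List.mem_range, List.mem_map, List.mem_filter,
      decide_eq_true_eq, Bool.and_eq_true]
    exact ⟨a.val, a.2, b.val, ⟨h, hab, k⟩, rfl⟩
  by_contra hne
  have := c2_sound _ _ (kAll hj).2.1 _ (m h hab k) _ (m h' hcd k') (by
    intro e2
    simp only [Prod.mk.injEq] at e2
    exact hne ⟨Fin.ext e2.1, Fin.ext e2.2.1⟩)
  simp [e] at this

theorem inj {j : ℕ} (hj : j < 3) {a b c d : V} (h : G.Adj a b) (h' : G.Adj c d)
    (k : kf j a b = true) (k' : kf j c d = true) (e : L j (a, b) = L j (c, d)) :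
    (a = c ∧ b = d) ∨ (a = d ∧ b = c) := by
  have e1 := fL hj h
  have e2 := fL hj h'
  have n1 : a.val ≠ b.val := fun e => h.ne (Fin.ext e)
  have n2 : c.val ≠ d.val := fun e => h'.ne (Fin.ext e)
  rcases lt_or_gt_of_ne n1 with l1 | l1 <;> rcases lt_or_gt_of_ne n2 with l2 | l2
  · exact Or.inl (inj0 hj h l1 h' l2 k k' e)
  · exact Or.inr (inj0 hj h l1 h'.symm l2 k (e2.2.1 ▸ k') (e.trans e2.1.symm))
  · exact Or.inr (inj0 hj h.symm l1 h' l2 (e1.2.1 ▸ k) k' (e1.1.trans e)).symm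
  · exact Or.inl (inj0 hj h.symm l1 h'.symm l2 (e1.2.1 ▸ k) (e2.2.1 ▸ k')
      (e1.1.trans (e.trans e2.1.symm))).symm

def bit (t n : ℕ) : ZMod 2 := if n.testBit t then 1 else 0

theorem bit_xor (t m n : ℕ) : bit t (m ^^^ n) = bit t m + bit t n := by
  unfold bit
  rw [Nat.testBit_xor]
  cases m.testBit t <;> cases n.testBit t <;> simp
  rfl

theorem bit_zero {n : ℕ} (h : ∀ t, bit t n = 0) : n = 0 := by
  apply Nat.eq_of_testBit_eq
  intro t
  have := h t
  unfold bit at this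
  cases e : n.testBit t
  · simp
  · rw [e] at this; simp at this

theorem vsum {j : ℕ} (hj : j < 3) (t : ℕ) (a : V) :
    ∑ b ∈ univ.filter (fun b => G.Adj a b), bit t (L j (a, b)) = 0 := by
  have : univ.filter (fun b => G.Adj a b) = {nf a 0, nf a 1, nf a 2} := by
    ext v; simp [adj_cases]
  rw [this, sum_insert (by simp [n01 a, n02 a]), sum_insert (by simp [n12 a]), sum_singleton,
    ← bit_xor, ← bit_xor, ← Nat.xor_assoc]
  have h : L j (a, nf a 0) ^^^ L j (a, nf a 1) ^^^ L j (a, nf a 2) = 0 := (fL0 hj a).1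
  rw [h]; simp [bit]

open Classical in
noncomputable def cut (X : Set V) : Finset (V × V) :=
  univ.filter fun p => p.1 ∈ X ∧ G.Adj p.1 p.2 ∧ p.2 ∉ X

theorem mem_cut {X : Set V} {p : V × V} : p ∈ cut X ↔ p.1 ∈ X ∧ G.Adj p.1 p.2 ∧ p.2 ∉ X := by
  simp [cut]

attribute [irreducible] cut

theorem csum {j : ℕ} (hj : j < 3) (t : ℕ) (X : Set V) : ∑ p ∈ cut X, bit t (L j p) = 0 := by
  classical
  have h1 : ∑ p ∈ (univ : Finset (V × V)).filter (fun p => p.1 ∈ X ∧ G.Adj p.1 p.2),
      bit t (L j p) = 0 := by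
    rw [sum_filter, Fintype.sum_prod_type]
    apply sum_eq_zero
    intro a _
    by_cases ha : a ∈ X
    · simp only [ha, true_and]
      rw [← sum_filter]
      exact vsum hj t a
    · simp [ha]
  have h2 : ∑ p ∈ (univ : Finset (V × V)).filter (fun p => (p.1 ∈ X ∧ G.Adj p.1 p.2) ∧ p.2 ∈ X),
      bit t (L j p) = 0 := by
    apply sum_involution (fun p _ => p.swap)
    · intro p hp
      simp only [mem_filter] at hp
      rw [show L j p.swap = L j p from (fL hj hp.2.1.2).1]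
      exact CharTwo.add_self_eq_zero _
    · intro p hp _ e
      simp only [mem_filter] at hp
      exact hp.2.1.2.ne (congrArg Prod.snd e)
    · intro p _
      rfl
    · intro p hp
      simp only [mem_filter, mem_univ, true_and] at hp ⊢
      exact ⟨⟨hp.2, hp.1.2.symm⟩, hp.1.1⟩
  rw [← sum_filter_add_sum_filter_not _ (fun p => p.2 ∈ X), filter_filter, filter_filter, h2,
    zero_add] at h1
  rw [← h1]
  apply sum_congr _ fun _ _ => rfl
  ext p
  simp [mem_cut, and_assoc]

/-! the tree -/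

theorem fT (v : V) :
    (v.val ≠ 0 → par v.val ∈ nb v.val ∧ dep (par v.val) + 1 = dep v.val ∧ par v.val < v.val) ∧
    (v.val < 94 → ∀ w ∈ nb v.val, (v.val ≠ 0 ∧ par v.val = w) ∨ (w ≠ 0 ∧ par w = v.val)) ∧
    (94 ≤ v.val → dep v.val = 6) := by
  have h := hT
  simp only [chkT, List.all_eq_true, List.mem_range, Bool.and_eq_true, Bool.or_eq_true,
    bne_iff_ne, ne_eq, beq_iff_eq, decide_eq_true_eq, List.contains_iff_mem] at h
  obtain ⟨⟨h1, h2⟩, h3⟩ := h v.val v.2
  refine ⟨fun k => ?_, fun k => ?_, fun k => ?_⟩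
  · rcases h1 with h1 | h1
    · exact absurd h1 k
    · exact ⟨h1.1.1, h1.1.2, h1.2⟩
  · rcases h2 with h2 | h2
    · omega
    · exact h2
  · rcases h3 with h3 | h3
    · omega
    · exact h3

def T : SimpleGraph V where
  Adj u v := (u.val ≠ 0 ∧ par u.val = v.val) ∨ (v.val ≠ 0 ∧ par v.val = u.val)
  symm := ⟨fun u v h => h.symm⟩
  loopless := ⟨fun u h => by
    have := (fT u).1
    rcases h with h | h <;> · have := (this h.1).2.2; omega⟩

theorem tadj {u v : V} :
    T.Adj u v ↔ (u.val ≠ 0 ∧ par u.val = v.val) ∨ (v.val ≠ 0 ∧ par v.val = u.val) := Iff.rfl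

theorem T_le : T ≤ G := by
  intro u v h
  rcases h with h | h
  · rw [adj_iff, ← h.2]; exact ((fT u).1 h.1).1
  · apply SimpleGraph.Adj.symm
    rw [adj_iff, ← h.2]; exact ((fT v).1 h.1).1

def pv (v : V) : V := ⟨par v.val, by have := v.2; unfold par; split_ifs <;> omega⟩

theorem T_hi {v : V} (h : v.val < 94) : T.neighborSet v = G.neighborSet v := by
  ext w
  exact ⟨fun k => T_le k, fun k => (fT v).2.1 h w.val k⟩

theorem T_lo {v : V} (h : 94 ≤ v.val) : T.neighborSet v = {pv v} := by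
  ext w
  simp only [SimpleGraph.mem_neighborSet, tadj, Set.mem_singleton_iff, pv, Fin.ext_iff]
  have := w.2
  constructor
  · rintro (k | k)
    · exact k.2.symm
    · exfalso
      have k2 := k.2
      unfold par at k2
      split_ifs at k2 <;> omega
  · intro k
    left
    exact ⟨by omega, k.symm⟩

theorem T_walk : ∀ n, ∀ v : V, v.val = n → ∃ w : T.Walk (0 : V) v, w.length = dep v.val := by
  intro n
  induction n using Nat.strong_induction_on with
  | _ n ih =>
    intro v hv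
    by_cases h0 : v.val = 0
    · have : v = 0 := Fin.ext h0
      subst this
      exact ⟨.nil, rfl⟩
    · obtain ⟨_, h2, h3⟩ := (fT v).1 h0
      obtain ⟨w, hw⟩ := ih (par v.val) (hv ▸ h3) (pv v) rfl
      have ha : T.Adj (pv v) v := Or.inr ⟨h0, rfl⟩
      refine ⟨w.concat ha, ?_⟩
      rw [SimpleGraph.Walk.length_concat, hw]
      exact h2

theorem dep_le {u v : V} (w : T.Walk u v) : dep v.val ≤ dep u.val + w.length := by
  induction w with
  | nil => simp
  | @cons a b c h w ih =>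
    have : dep b.val ≤ dep a.val + 1 := by
      rcases h with h | h
      · have := ((fT a).1 h.1).2.1
        rw [h.2] at this; omega
      · have := ((fT b).1 h.1).2.1
        rw [h.2] at this; omega
    rw [SimpleGraph.Walk.length_cons]; omega

theorem T_conn : T.Connected := by
  have h : ∀ v : V, T.Reachable 0 v := fun v => by
    obtain ⟨w, _⟩ := T_walk _ v rfl
    exact ⟨w⟩
  exact ⟨fun u v => (h u).symm.trans (h v)⟩

theorem T_dist (v : V) : T.dist 0 v = dep v.val := by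
  apply le_antisymm
  · obtain ⟨w, hw⟩ := T_walk _ v rfl
    rw [← hw]; exact SimpleGraph.dist_le w
  · obtain ⟨w, hw⟩ := (T_conn.preconnected 0 v).exists_walk_length_eq_dist
    have := dep_le w
    rw [hw] at this
    simpa [dep] using this

theorem T_deg (v : V) : (T.neighborSet v).ncard = if v.val < 94 then 3 else 1 := by
  split_ifs with h
  · rw [T_hi h, cubic]
  · rw [T_lo (by omega), Set.ncard_singleton]

theorem T_tree : T.IsTree := by
  classical
  rw [SimpleGraph.isTree_iff_connected_and_card]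
  refine ⟨T_conn, ?_⟩
  have h := T.sum_degrees_eq_twice_card_edges
  have h2 : ∀ v : V, T.degree v = if v.val < 94 then 3 else 1 := by
    intro v
    rw [← T_deg, ← SimpleGraph.card_neighborSet_eq_degree, Set.ncard_eq_toFinset_card',
      Set.toFinset_card]
  simp only [h2] at h
  have h3 : ∑ v : V, (if v.val < 94 then 3 else 1) = 378 := by decide +kernel
  rw [h3] at h
  rw [Nat.card_eq_fintype_card, ← SimpleGraph.edgeFinset_card]
  simp only [Nat.card_eq_fintype_card, Fintype.card_fin]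
  omega

end Pool.Agent.H.MP_98514b_co
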