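import Pool.Agent.H.MP_98514b_co.C

set_option maxRecDepth 20000
set_option linter.constructorNameAsVariable false

namespace Pool.Agent.H.MP_98514b_co

open Finset

attribute [local irreducible] lab nbr nb kf NK st NK0 NK1 NK2

def cr (X : Set V) (a b : V) : Prop := ¬ (a ∈ X ↔ b ∈ X)

theorem cr_symm {X : Set V} {a b : V} (h : cr X a b) : cr X b a := fun k => h k.symm

theorem cr_cut {X : Set V} {p : V × V} (h : p ∈ cut X) : cr X p.1 p.2 := by
  have := mem_cut.mp h
  exact fun k => this.2.2 (k.mp this.1)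

def Ind (X : Set V) : Prop :=
  ∀ z b c : V, G.Adj z b → G.Adj z c → b ≠ c → cr X z b → cr X z c → False

theorem inn_cr {j : ℕ} (hj : j < 3) (X : Set V) (S : List (ℕ × ℕ × ℕ)) (x : ℕ)
    (hS : ∀ s ∈ S, ∃ a b : V, s.1 = a.val ∧ s.2.1 = b.val ∧ cr X a b)
    (hx : ∀ t, x.testBit t = true → ∃ q ∈ cut X, kf j q.1 q.2 = true ∧ (L j q).log2 = t)
    {z b : V} (h : G.Adj z b) (hi : inn j S x z b = true) : cr X z b := by
  simp only [inn, Bool.or_eq_true, List.any_eq_true, Bool.and_eq_true, beq_iff_eq] at hi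
  rcases hi with ⟨s, hs, hi⟩ | ⟨k, hb⟩
  · obtain ⟨a, c, e1, e2, hc⟩ := hS s hs
    rcases hi with ⟨i1, i2⟩ | ⟨i1, i2⟩
    · rw [show z = a from Fin.ext (i1.symm.trans e1), show b = c from Fin.ext (i2.symm.trans e2)]
      exact hc
    · rw [show b = a from Fin.ext (i1.symm.trans e1), show z = c from Fin.ext (i2.symm.trans e2)]
      exact cr_symm hc
  · have hb' : x.testBit (L j (z, b)).log2 = true := by
      by_contra k2
      have hb2 : x &&& L j (z, b) ≠ 0 := by simpa [L] using hb
      apply hb2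
      apply Nat.eq_of_testBit_eq
      intro t
      rw [(fL hj h).2.2.1 k, Nat.testBit_and, Nat.testBit_two_pow]
      by_cases e : (L j (z, b)).log2 = t
      · subst e; simpa using k2
      · simp [e]
    obtain ⟨⟨c, d⟩, hq, kq, e⟩ := hx _ hb'
    have ha := (mem_cut.mp hq).2.1
    have e2 : L j (z, b) = L j (c, d) := by
      rw [(fL hj h).2.2.1 k, (fL hj ha).2.2.1 kq, e]
    rcases inj hj h ha k kq e2 with ⟨rfl, rfl⟩ | ⟨rfl, rfl⟩
    · exact cr_cut hq
    · exact cr_symm (cr_cut hq)

theorem wit_false {j : ℕ} (hj : j < 3) (X : Set V) (hI : Ind X) (S : List (ℕ × ℕ × ℕ)) (x : ℕ)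
    (hS : ∀ s ∈ S, ∃ a b : V, s.1 = a.val ∧ s.2.1 = b.val ∧ cr X a b)
    (hx : ∀ t, x.testBit t = true → ∃ q ∈ cut X, kf j q.1 q.2 = true ∧ (L j q).log2 = t)
    (hw : wit j S x = true) : False := by
  simp only [wit, Bool.or_eq_true, List.any_eq_true, Bool.and_eq_true, decide_eq_true_eq] at hw
  obtain ⟨z, _, hz, hw⟩ := hw
  let u : V := ⟨z, hz⟩
  have i0 := inn_cr hj X S x hS hx (adj_nf u 0)
  have i1 := inn_cr hj X S x hS hx (adj_nf u 1)
  have i2 := inn_cr hj X S x hS hx (adj_nf u 2)
  rcases hw with ⟨a, b | b⟩ | ⟨a, b⟩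
  · exact hI u _ _ (adj_nf u 0) (adj_nf u 1) (n01 u) (i0 a) (i1 b)
  · exact hI u _ _ (adj_nf u 0) (adj_nf u 2) (n02 u) (i0 a) (i2 b)
  · exact hI u _ _ (adj_nf u 1) (adj_nf u 2) (n12 u) (i1 a) (i2 b)

def nrm (j : ℕ) (p : V × V) : ℕ × ℕ × ℕ :=
  if p.1.val ≤ p.2.val then (p.1.val, p.2.val, L j p) else (p.2.val, p.1.val, L j p)

theorem nrm_lab (j : ℕ) (p : V × V) : (nrm j p).2.2 = L j p := by
  unfold nrm; split_ifs <;> rfl

theorem nrm_mem {j : ℕ} (hj : j < 3) {p : V × V} (h : G.Adj p.1 p.2)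
    (k : kf j p.1 p.2 = false) : nrm j p ∈ NK j := by
  unfold nrm
  split_ifs with l
  · exact (fL hj h).2.2.2 k l
  · have := (fL hj h.symm).2.2.2 ((fL hj h).2.1.trans k) (by omega)
    rwa [(fL hj h).1] at this

theorem nrm_cr (j : ℕ) {X : Set V} {p : V × V} (h : p ∈ cut X) :
    ∃ a b : V, (nrm j p).1 = a.val ∧ (nrm j p).2.1 = b.val ∧ cr X a b := by
  unfold nrm
  split_ifs
  · exact ⟨_, _, rfl, rfl, cr_cut h⟩
  · exact ⟨_, _, rfl, rfl, cr_symm (cr_cut h)⟩

theorem nrm_inj (j : ℕ) {X : Set V} {p q : V × V} (hp : p ∈ cut X) (hq : q ∈ cut X) (h : p ≠ q) :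
    nrm j p ≠ nrm j q := by
  intro e
  have hp := mem_cut.mp hp
  have hq := mem_cut.mp hq
  unfold nrm at e
  split_ifs at e <;> simp only [Prod.mk.injEq] at e
  · exact h (Prod.ext (Fin.ext e.1) (Fin.ext e.2.1))
  · exact hq.2.2 ((show p.1 = q.2 from Fin.ext e.1) ▸ hp.1)
  · exact hq.2.2 ((show p.1 = q.2 from Fin.ext e.2.1) ▸ hp.1)
  · exact h (Prod.ext (Fin.ext e.2.1) (Fin.ext e.1))

theorem bit_ne {t n : ℕ} : bit t n ≠ 0 ↔ n.testBit t = true := by
  unfold bit
  cases n.testBit t <;> simp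

theorem mainj {j : ℕ} (hj : j < 3) (X : Set V) (hI : Ind X) (h0 : (cut X).Nonempty)
    (h5 : (cut X).card ≤ 5) (h3 : ((cut X).filter fun p => ¬ kf j p.1 p.2 = true).card ≤ 3) :
    False := by
  classical
  set S := (cut X).filter fun p => ¬ kf j p.1 p.2 = true with hSdef
  set DK := (cut X).filter fun p => kf j p.1 p.2 = true with hDK
  have hc : DK.card + S.card = (cut X).card := card_filter_add_card_filter_not _
  have hsum : ∀ t, ∑ p ∈ DK, bit t (L j p) + ∑ p ∈ S, bit t (L j p) = 0 := fun t => by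
    rw [sum_filter_add_sum_filter_not]; exact csum hj t X
  have hpow : ∀ q ∈ DK, ∀ t, (L j q).testBit t = true → (L j q).log2 = t := by
    intro q hq t ht
    have hq' := mem_filter.mp hq
    rw [(fL hj (mem_cut.mp hq'.1).2.1).2.2.1 hq'.2, Nat.testBit_two_pow] at ht
    simpa using ht
  have hbits : ∀ x, (∀ t, bit t x = ∑ p ∈ S, bit t (L j p)) → ∀ t, x.testBit t = true →
      ∃ q ∈ DK, (L j q).log2 = t := by
    intro x hx t ht
    by_contra k
    have : ∑ p ∈ DK, bit t (L j p) = 0 := by
      apply sum_eq_zero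
      intro q hq
      by_contra k2
      exact k ⟨q, hq, hpow q hq t (bit_ne.mp k2)⟩
    have h2 := hsum t
    rw [this, zero_add, ← hx] at h2
    exact bit_ne.mpr ht h2
  have fin : ∀ (Sl : List (ℕ × ℕ × ℕ)) (x k : ℕ), (∀ s ∈ Sl, ∃ p ∈ S, s = nrm j p) →
      (∀ t, bit t x = ∑ p ∈ S, bit t (L j p)) → k + S.card = 5 →
      st^[k] x = 0 ∧ ¬ wit j Sl x = true := by
    intro Sl x k h1 h2 h3
    constructor
    · refine st_iter k (DK.image fun q => (L j q).log2) x (card_image_le.trans (by omega)) ?_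
      intro t ht
      obtain ⟨q, hq, e⟩ := hbits x h2 t ht
      exact mem_image.mpr ⟨q, hq, e⟩
    · refine wit_false hj X hI Sl x ?_ ?_
      · intro s hs
        obtain ⟨p, hp, rfl⟩ := h1 s hs
        exact nrm_cr j (mem_filter.mp hp).1
      · intro t ht
        obtain ⟨q, hq, e⟩ := hbits x h2 t ht
        exact ⟨q, (mem_filter.mp hq).1, (mem_filter.mp hq).2, e⟩
  have hmem : ∀ p ∈ S, nrm j p ∈ NK j := fun p hp =>
    nrm_mem hj (mem_cut.mp (mem_filter.mp hp).1).2.1 (by simpa using (mem_filter.mp hp).2)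
  have hcut : ∀ p ∈ S, p ∈ cut X := fun p hp => (mem_filter.mp hp).1
  obtain ⟨_, _, k1, k2, k3, klen⟩ := kAll hj
  have : S.card = 0 ∨ S.card = 1 ∨ S.card = 2 ∨ S.card = 3 := by omega
  rcases this with h | h | h | h
  · have hS0 : S = ∅ := card_eq_zero.mp h
    obtain ⟨p, hp⟩ := h0
    have hall : ∀ q ∈ cut X, kf j q.1 q.2 = true := by
      intro q hq
      by_contra k
      have : q ∈ S := mem_filter.mpr ⟨hq, k⟩
      rw [hS0] at this
      simp at this
    have hpa := (mem_cut.mp hp).2.1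
    have h2 := csum hj (L j p).log2 X
    rw [sum_eq_single p] at h2
    · refine bit_ne.mpr ?_ h2
      apply Nat.testBit_log2
      rw [(fL hj hpa).2.2.1 (hall p hp)]
      positivity
    · intro q hq hne
      by_contra k
      have hqa := (mem_cut.mp hq).2.1
      have e := hpow q (mem_filter.mpr ⟨hq, hall q hq⟩) _ (bit_ne.mp k)
      have e2 : L j (q.1, q.2) = L j (p.1, p.2) := by
        rw [(fL hj hqa).2.2.1 (hall q hq), (fL hj hpa).2.2.1 (hall p hp)]
        exact congrArg _ e
      rcases inj hj hqa hpa (hall q hq) (hall p hp) e2 with k | k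
      · exact hne (Prod.ext k.1 k.2)
      · exact (mem_cut.mp hp).2.2 (k.1 ▸ (mem_cut.mp hq).1)
    · intro k; exact absurd hp k
  · obtain ⟨p, e⟩ := card_eq_one.mp h
    have hp : p ∈ S := by rw [e]; simp
    have := fin [nrm j p] (nrm j p).2.2 4 (by simpa using ⟨p.1, p.2, hp, rfl⟩)
      (fun t => by rw [e, sum_singleton, nrm_lab]) (by omega)
    have k := List.all_eq_true.mp k1 _ (hmem p hp)
    have t1 : st (st (st (st (nrm j p).2.2))) = 0 := this.1
    rw [f1, t1] at k
    exact this.2 (by simpa using k)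
  · obtain ⟨p, q, hne, e⟩ := card_eq_two.mp h
    have hp : p ∈ S := by rw [e]; simp
    have hq : q ∈ S := by rw [e]; simp
    have key : ∀ p q, p ∈ S → q ∈ S → p ≠ q → S = {p, q} → ¬ f2 j (nrm j p) (nrm j q) = true := by
      intro p q hp hq hne e k
      have := fin [nrm j p, nrm j q] ((nrm j p).2.2 ^^^ (nrm j q).2.2) 3
        (by
          intro s hs
          simp only [List.mem_cons, List.not_mem_nil, or_false] at hs
          rcases hs with rfl | rfl
          · exact ⟨p, hp, rfl⟩
          · exact ⟨q, hq, rfl⟩)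
        (fun t => by rw [e, sum_pair hne, bit_xor, nrm_lab, nrm_lab]) (by omega)
      have t1 : st (st (st ((nrm j p).2.2 ^^^ (nrm j q).2.2))) = 0 := this.1
      rw [f2, t1] at k
      exact this.2 (by simpa using k)
    rcases c2_sound _ _ k2 _ (hmem p hp) _ (hmem q hq)
      (nrm_inj j (hcut p hp) (hcut q hq) hne) with k | k
    · exact key p q hp hq hne e k
    · exact key q p hq hp hne.symm (by rw [e, pair_comm]) k
  · obtain ⟨p, q, r, n1, n2, n3, e⟩ := card_eq_three.mp h
    have hp : p ∈ S := by rw [e]; simp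
    have hq : q ∈ S := by rw [e]; simp
    have hr : r ∈ S := by rw [e]; simp
    obtain ⟨a, b, c, k, hperm⟩ := c3_sound _ _ 189 (by omega) k3 _ (hmem p hp) _ (hmem q hq) _
      (hmem r hr) (nrm_inj j (hcut p hp) (hcut q hq) n1) (nrm_inj j (hcut p hp) (hcut r hr) n2)
      (nrm_inj j (hcut q hq) (hcut r hr) n3)
    have := fin [a, b, c] (a.2.2 ^^^ b.2.2 ^^^ c.2.2) 2
      (by
        intro s hs
        have hs := hperm.subset hs
        simp only [List.mem_cons, List.not_mem_nil, or_false] at hs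
        rcases hs with rfl | rfl | rfl
        · exact ⟨p, hp, rfl⟩
        · exact ⟨q, hq, rfl⟩
        · exact ⟨r, hr, rfl⟩)
      (fun t => by
        have h1 := (hperm.map fun s => bit t s.2.2).sum_eq
        simp only [List.map_cons, List.map_nil, List.sum_cons, List.sum_nil, add_zero,
          nrm_lab] at h1
        rw [e, sum_insert (by simp [n1, n2]), sum_pair n3, bit_xor, bit_xor, ← h1, add_assoc])
      (by omega)
    have t1 : st (st (Nat.xor (Nat.xor a.2.2 b.2.2) c.2.2)) = 0 := this.1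
    rw [f3, t1] at k
    exact this.2 (by simpa using k)

theorem not_ind (X : Set V) (hI : Ind X) (h0 : (cut X).Nonempty) (h5 : (cut X).card ≤ 5) :
    False := by
  classical
  have c := fun j => card_filter_add_card_filter_not (s := cut X) fun p => kf j p.1 p.2 = true
  have hu : (cut X).card ≤ ((cut X).filter fun p => kf 0 p.1 p.2 = true).card +
      (((cut X).filter fun p => kf 1 p.1 p.2 = true).card +
      ((cut X).filter fun p => kf 2 p.1 p.2 = true).card) := by
    refine le_trans (card_le_card ?_) ((card_union_le _ _).trans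
      (Nat.add_le_add_left (card_union_le _ _) _))
    intro p hp
    have := ((fA p.1.2).2.2.2.2 _ (mem_cut.mp hp).2.1).2.2.2
    simp only [mem_union, mem_filter, hp, true_and]
    exact this
  have c0 := c 0
  have c1 := c 1
  have c2 := c 2
  have m0 := mainj (j := 0) (by norm_num) X hI h0 h5
  have m1 := mainj (j := 1) (by norm_num) X hI h0 h5
  have m2 := mainj (j := 2) (by norm_num) X hI h0 h5
  have m0' := not_le.mp m0
  have m1' := not_le.mp m1
  have m2' := not_le.mp m2
  omega

theorem cut_compl (X : Set V) : (cut Xᶜ).card = (cut X).card := by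
  apply card_bij (fun p _ => p.swap)
  · intro p hp
    have := mem_cut.mp hp
    exact mem_cut.mpr ⟨by simpa using this.2.2, this.2.1.symm, this.1⟩
  · intro p _ q _ e
    exact Prod.swap_injective e
  · intro p hp
    have := mem_cut.mp hp
    exact ⟨p.swap, mem_cut.mpr ⟨this.2.2, this.2.1.symm, by simpa using this.1⟩, rfl⟩

theorem third {z b c : V} (hb : G.Adj z b) (hc : G.Adj z c) (hbc : b ≠ c) :
    ∃ d, ∀ w, G.Adj z w → w = b ∨ w = c ∨ w = d := by
  simp only [adj_cases] at hb hc ⊢
  rcases hb with rfl | rfl | rfl <;> rcases hc with rfl | rfl | rfl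
  · exact absurd rfl hbc
  · exact ⟨nf z 2, fun w h => h⟩
  · exact ⟨nf z 1, fun w h => by tauto⟩
  · exact ⟨nf z 2, fun w h => by tauto⟩
  · exact absurd rfl hbc
  · exact ⟨nf z 0, fun w h => by tauto⟩
  · exact ⟨nf z 1, fun w h => by tauto⟩
  · exact ⟨nf z 0, fun w h => by tauto⟩
  · exact absurd rfl hbc

theorem flip (X : Set V) {z b c : V} (hz : z ∈ X) (hb : G.Adj z b) (hc : G.Adj z c) (hbc : b ≠ c)
    (hb' : b ∉ X) (hc' : c ∉ X) : (cut (X \ {z})).card + 1 ≤ (cut X).card := by
  classical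
  obtain ⟨d, hd⟩ := third hb hc hbc
  have m1 : (z, b) ∈ cut X := mem_cut.mpr ⟨hz, hb, hb'⟩
  have m2 : (z, c) ∈ (cut X).erase (z, b) :=
    mem_erase.mpr ⟨by simpa using hbc.symm, mem_cut.mpr ⟨hz, hc, hc'⟩⟩
  have hsub : cut (X \ {z}) ⊆ insert (d, z) (((cut X).erase (z, b)).erase (z, c)) := by
    rintro ⟨u, w⟩ hp
    obtain ⟨⟨p1, p1'⟩, p2, p3⟩ := mem_cut.mp hp
    simp only [Set.mem_singleton_iff] at p1'
    by_cases hw : w = z
    · subst hw
      rcases hd u p2.symm with k | k | k
      · exact absurd (k ▸ p1) hb'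
      · exact absurd (k ▸ p1) hc'
      · rw [k]; exact mem_insert_self _ _
    · apply mem_insert_of_mem
      refine mem_erase.mpr ⟨fun k => p1' (congrArg Prod.fst k), mem_erase.mpr
        ⟨fun k => p1' (congrArg Prod.fst k), mem_cut.mpr ⟨p1, p2, fun k => p3 ⟨k, hw⟩⟩⟩⟩
  have h1 := (card_le_card hsub).trans (card_insert_le _ _)
  have h2 := card_erase_add_one m1
  have h3 := card_erase_add_one m2
  omega

theorem small : ∀ (k : ℕ) (X : Set V), (cut X).card ≤ k → k ≤ 5 →
    X.ncard ≤ k ∨ Xᶜ.ncard ≤ k := by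
  have step : ∀ (k : ℕ), (∀ m, m + 1 = k → ∀ X : Set V, (cut X).card ≤ m →
      X.ncard ≤ m ∨ Xᶜ.ncard ≤ m) → ∀ X : Set V, (cut X).card ≤ k → k ≤ 5 →
      X.ncard ≤ k ∨ Xᶜ.ncard ≤ k := by
    intro k ih X hX hk
    by_cases h0 : (cut X).Nonempty
    swap
    · by_cases e : X = ∅
      · left; rw [e]; simp
      right
      have : Xᶜ = ∅ := by
        by_contra e2
        obtain ⟨u, hu⟩ := Set.nonempty_iff_ne_empty.mpr e
        obtain ⟨v, hv⟩ := Set.nonempty_iff_ne_empty.mpr e2
        obtain ⟨w⟩ := (T_conn.mono T_le).preconnected u v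
        obtain ⟨d, _, d1, d2⟩ := w.exists_boundary_dart X hu hv
        exact h0 ⟨d.toProd, mem_cut.mpr ⟨d1, d.adj, d2⟩⟩
      rw [this]; simp
    have hI : ¬ Ind X := fun hI => not_ind X hI h0 (by omega)
    have one : ∀ Y : Set V, (cut Y).card ≤ k → ∀ z b c : V, z ∈ Y → G.Adj z b → G.Adj z c →
        b ≠ c → b ∉ Y → c ∉ Y → Y.ncard ≤ k ∨ Yᶜ.ncard ≤ k := by
      intro Y hY z b c hz hb hc hbc hb' hc'
      have hf := flip Y hz hb hc hbc hb' hc'
      rcases ih (k - 1) (by omega) (Y \ {z}) (by omega) with h | h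
      · left
        have := Set.ncard_sdiff_singleton_add_one hz
        omega
      · right
        have : Yᶜ.ncard ≤ (Y \ {z})ᶜ.ncard :=
          Set.ncard_le_ncard (Set.compl_subset_compl.mpr Set.sdiff_subset)
        omega
    unfold Ind at hI
    push Not at hI
    obtain ⟨z, b, c, hb, hc, hbc, c1, c2, _⟩ := hI
    by_cases hz : z ∈ X
    · exact one X hX z b c hz hb hc hbc (fun k => c1 ⟨fun _ => k, fun _ => hz⟩)
        (fun k => c2 ⟨fun _ => k, fun _ => hz⟩)
    · have := one Xᶜ (by rw [cut_compl]; exact hX) z b c hz hb hc hbc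
        (fun k => c1 ⟨fun h => absurd h hz, fun h => absurd h k⟩)
        (fun k => c2 ⟨fun h => absurd h hz, fun h => absurd h k⟩)
      rw [compl_compl] at this
      exact this.symm
  intro k
  induction k with
  | zero => exact step 0 (fun m hm => by omega)
  | succ k ih =>
    intro X hX hk
    refine step (k + 1) (fun m hm Y hY => ?_) X hX hk
    obtain rfl : m = k := by omega
    exact ih Y hY (by omega)

theorem big (Y : Set V) {H : SimpleGraph V} (hH : H ≤ G) {a : V} (w : H.Walk a a)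
    (hw : w.IsCycle) (hs : ∀ y ∈ w.support, y ∈ Y) : 6 ≤ Y.ncard := by
  have h1 := SimpleGraph.le_egirth.mp girth6 a (w.mapLe hH) (hw.mapLe hH)
  have h2 : 6 ≤ w.length := by
    have : (w.mapLe hH).length = w.length := by simp [SimpleGraph.Walk.mapLe]
    rw [this] at h1
    exact_mod_cast h1
  have h3 : w.support.tail.toFinset.card = w.length := by
    rw [List.toFinset_card_of_nodup hw.support_nodup]; simp
  have h4 : (w.support.tail.toFinset : Set V) ⊆ Y := by
    intro y hy
    exact hs y (List.mem_of_mem_tail (by simpa using hy))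
  have := Set.ncard_le_ncard h4
  rw [Set.ncard_coe_finset] at this
  omega

theorem cyc6 (F : Finset (Sym2 V)) (hF : F.card < 6) (u v : V)
    (c : (G.deleteEdges F).Walk u u) (d : (G.deleteEdges F).Walk v v) (hc : c.IsCycle)
    (hd : d.IsCycle) : (G.deleteEdges F).Reachable u v := by
  classical
  by_contra huv
  let X : Set V := {w | (G.deleteEdges F).Reachable u w}
  have h3 : (cut X).card ≤ 5 := by
    have : (cut X).card ≤ F.card := by
      apply card_le_card_of_injOn (fun p => s(p.1, p.2))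
      · intro p hp
        obtain ⟨ha, hab, hb⟩ := mem_cut.mp hp
        by_contra k
        apply hb
        exact SimpleGraph.Reachable.trans ha
          (SimpleGraph.Adj.reachable (by simpa [hab] using k))
      · intro p hp q hq e
        have hp := mem_cut.mp hp
        have hq := mem_cut.mp hq
        simp only [Sym2.eq_iff] at e
        rcases e with e | e
        · exact Prod.ext e.1 e.2
        · exact absurd (e.1 ▸ hp.1) hq.2.2
    omega
  have b1 := big X (SimpleGraph.deleteEdges_le _) c hc fun y hy => ⟨c.takeUntil y hy⟩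
  have b2 := big Xᶜ (SimpleGraph.deleteEdges_le _) d hd fun y hy k =>
    huv (SimpleGraph.Reachable.trans k (SimpleGraph.Reachable.symm ⟨d.takeUntil y hy⟩))
  rcases small 5 X h3 le_rfl with h | h <;> omega

theorem rot (a b : ℕ) (ha : a < 96) (hb : 94 + b ∈ nb (94 + a)) :
    94 + (b + 32) % 96 ∈ nb (94 + (a + 32) % 96) := by
  have h := hR
  simp only [chkR, List.all_eq_true, List.mem_range, Bool.or_eq_true, decide_eq_true_eq,
    List.contains_iff_mem] at h
  rcases h a ha _ hb with k | k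
  · omega
  · rwa [show 94 + b - 94 = b by omega] at k

theorem par_mono : Monotone par := by
  intro a b h
  unfold par
  split_ifs <;> omega

theorem walk_up {u v : V} (w : T.Walk u v) (h : dep v.val = dep u.val + w.length) :
    par^[w.length] v.val = u.val := by
  induction w with
  | nil => rfl
  | @cons a b c hab w ih =>
    rw [SimpleGraph.Walk.length_cons] at h ⊢
    have h1 := dep_le w
    rw [Function.iterate_succ_apply']
    rcases hab with k | k
    · have := ((fT a).1 k.1).2.1
      rw [k.2] at this; omega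
    · have := ((fT b).1 k.1).2.1
      rw [k.2] at this
      rw [ih (by omega), k.2]

theorem walk_down : ∀ (k : ℕ) (v u : V), k ≤ dep v.val → par^[k] v.val = u.val →
    ∃ w : T.Walk u v, w.length = k := by
  intro k
  induction k with
  | zero =>
    intro v u _ h
    obtain rfl : v = u := Fin.ext h
    exact ⟨.nil, rfl⟩
  | succ k ih =>
    intro v u hk h
    have h0 : v.val ≠ 0 := by
      intro e
      rw [e] at hk
      simp [dep] at hk
    have h2 := ((fT v).1 h0).2.1
    obtain ⟨w, hw⟩ := ih (pv v) u (by show k ≤ dep (par v.val); omega) h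
    have ha : T.Adj (pv v) v := Or.inr ⟨h0, rfl⟩
    exact ⟨w.concat ha, by rw [SimpleGraph.Walk.length_concat, hw]⟩

theorem below_iff (w v : V) (hv : 94 ≤ v.val) :
    T.dist 0 w + T.dist w v = T.dist 0 v ↔ par^[6 - dep w.val] v.val = w.val := by
  have h6 := (fT v).2.2 hv
  have hw : dep w.val ≤ 6 := by unfold dep; split_ifs <;> omega
  constructor
  · intro h
    rw [T_dist, T_dist, h6] at h
    obtain ⟨p, hp⟩ := (T_conn.preconnected w v).exists_walk_length_eq_dist
    have := walk_up p (by omega)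
    rwa [show p.length = 6 - dep w.val by omega] at this
  · intro h
    obtain ⟨p, hp⟩ := walk_down _ v w (by omega) h
    have h1 := SimpleGraph.dist_le p
    have h2 := T_conn.dist_triangle (u := 0) (v := w) (w := v)
    rw [T_dist, T_dist, h6] at *
    omega

theorem interval (w a b c : V) (ha : 94 ≤ a.val) (hab : a.val ≤ b.val) (hbc : b.val ≤ c.val)
    (h1 : T.dist 0 w + T.dist w a = T.dist 0 a) (h2 : T.dist 0 w + T.dist w c = T.dist 0 c) :
    T.dist 0 w + T.dist w b = T.dist 0 b := by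
  rw [below_iff _ _ (by omega)] at h1 h2 ⊢
  have m1 := par_mono.iterate (6 - dep w.val) hab
  have m2 := par_mono.iterate (6 - dep w.val) hbc
  omega

end Pool.Agent.H.MP_98514b_co
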