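import Pool.Agent.H.MP_98514b_co.A

set_option maxRecDepth 100000

namespace Pool.Agent.H.MP_98514b_co

theorem rX : ref SX (fun _ => 0) = true := by decide +kernel
theorem rP : ref SP (fun _ => 0) = true := by decide +kernel

end Pool.Agent.H.MP_98514b_co
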